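import Pool.Agent.N418.CZ.Stm

/-!
# Project CZ (helper418), part TRC (helper8): alternating polynomial times a trace
-/

set_option autoImplicit false

namespace Pool.Agent.N8.CZ.TRC

open Module Pool.Agent.N418.CZ

section alt

variable {ι : Type} [Fintype ι] [DecidableEq ι] {E : Type} [AddCommGroup E] [Module ℝ E]

omit [Fintype ι] in
lemma comp_val (g : E [⋀^ι]→ₗ[ℝ] ℝ) (L : E →ₗ[ℝ] E) (v : ι → E) (j : ι) :
    g.toMultilinearMap.compLinearMap (fun i => if i = j then L else LinearMap.id) v =
      g (Function.update v j (L (v j))) := by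
  rw [MultilinearMap.compLinearMap_apply]
  change g _ = g _
  congr 1
  funext i
  by_cases h : i = j
  · subst h; simp
  · simp [h]

lemma sum_val (g : E [⋀^ι]→ₗ[ℝ] ℝ) (L : E →ₗ[ℝ] E) (v : ι → E) :
    (∑ j, g.toMultilinearMap.compLinearMap (fun i => if i = j then L else LinearMap.id)) v =
      ∑ j, g (Function.update v j (L (v j))) := by
  rw [sum_apply]
  exact Finset.sum_congr rfl fun j _ => comp_val g L v j

lemma sum_zero (g : E [⋀^ι]→ₗ[ℝ] ℝ) (L : E →ₗ[ℝ] E) (v : ι → E) (i i' : ι) (hv : v i = v i')
    (hne : i ≠ i') : ∑ j, g (Function.update v j (L (v j))) = 0 := by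
  rw [Fintype.sum_eq_add i i' hne]
  · have e : Function.update v i' (L (v i')) =
        (Function.update v i (L (v i))) ∘ Equiv.swap i i' := by
      funext c
      rw [Function.comp_apply]
      by_cases h1 : c = i
      · subst h1
        rw [Equiv.swap_apply_left, Function.update_of_ne hne, Function.update_of_ne hne.symm, hv]
      · by_cases h2 : c = i'
        · subst h2
          rw [Equiv.swap_apply_right, Function.update_self, Function.update_self, hv]
        · rw [Equiv.swap_apply_of_ne_of_ne h1 h2, Function.update_of_ne h2,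
            Function.update_of_ne h1]
    rw [e, g.map_swap _ hne, add_neg_cancel]
  · intro j hj
    refine g.map_eq_zero_of_eq _ (i := i) (j := i') ?_ hne
    rw [Function.update_of_ne hj.1.symm, Function.update_of_ne hj.2.symm, hv]

/-- the derivation of an alternating map -/
noncomputable def der (g : E [⋀^ι]→ₗ[ℝ] ℝ) (L : E →ₗ[ℝ] E) : E [⋀^ι]→ₗ[ℝ] ℝ where
  toMultilinearMap :=
    ∑ j, g.toMultilinearMap.compLinearMap (fun i => if i = j then L else LinearMap.id)
  map_eq_zero_of_eq' := by
    intro v i i' hv hne
    change (∑ j, g.toMultilinearMap.compLinearMap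
      (fun i => if i = j then L else LinearMap.id)) v = 0
    rw [sum_val]
    exact sum_zero g L v i i' hv hne

lemma der_apply (g : E [⋀^ι]→ₗ[ℝ] ℝ) (L : E →ₗ[ℝ] E) (v : ι → E) :
    der g L v = ∑ j, g (Function.update v j (L (v j))) := sum_val g L v

lemma det_update (b : Basis ι ℝ E) (j : ι) (u : E) :
    b.det (Function.update b j u) = b.repr u j := by
  rw [Basis.det_apply, Basis.toMatrix_update, Basis.toMatrix_self, ← Matrix.cramer_apply,
    Matrix.cramer_one]
  rfl

lemma der_eq (b : Basis ι ℝ E) (g : E [⋀^ι]→ₗ[ℝ] ℝ) (L : E →ₗ[ℝ] E) (v : ι → E) :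
    ∑ j, g (Function.update v j (L (v j))) = (∑ j, b.repr (L (b j)) j) * g v := by
  have h2 : ∀ v, g v = g b * b.det v := fun v => by
    conv_lhs => rw [g.eq_smul_basis_det b]
    rfl
  have h1 : der g L v = der g L b * b.det v := by
    conv_lhs => rw [(der g L).eq_smul_basis_det b]
    rfl
  rw [← der_apply, h1, der_apply, h2 v]
  have h3 : ∀ j, g (Function.update b j (L (b j))) = g b * b.repr (L (b j)) j := fun j => by
    rw [h2, det_update]
  rw [Finset.sum_congr rfl fun j _ => h3 j, ← Finset.mul_sum]
  ring

end alt

/-- the trace of the multiplication by `W` -/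
lemma trace_mul {k : ℕ} (W : Mk k) :
    ∑ j, (((Matrix.stdBasis ℝ (Fin k) (Fin k)).reindex finProdFinEquiv).repr
      (LinearMap.mulLeft ℝ W (((Matrix.stdBasis ℝ (Fin k) (Fin k)).reindex finProdFinEquiv) j)) j) =
      k * W.trace := by
  rw [← Equiv.sum_comp finProdFinEquiv]
  have h : ∀ p : Fin k × Fin k,
      (((Matrix.stdBasis ℝ (Fin k) (Fin k)).reindex finProdFinEquiv).repr
      (LinearMap.mulLeft ℝ W (((Matrix.stdBasis ℝ (Fin k) (Fin k)).reindex finProdFinEquiv)
        (finProdFinEquiv p))) (finProdFinEquiv p)) = W p.1 p.1 := by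
    rintro ⟨i, j⟩
    rw [Basis.reindex_apply, Equiv.symm_apply_apply, Basis.repr_reindex_apply,
      Equiv.symm_apply_apply, Matrix.stdBasis_eq_single, LinearMap.mulLeft_apply]
    have h1 : ∀ M : Mk k, (Matrix.stdBasis ℝ (Fin k) (Fin k)).repr M (i, j) = M i j := by
      intro M
      rfl
    rw [h1, Matrix.mul_apply]
    rw [Finset.sum_eq_single i]
    · simp
    · intro c _ hc
      rw [Matrix.single_apply, if_neg (fun h => hc h.1.symm), mul_zero]
    · intro h; exact absurd (Finset.mem_univ _) h
  rw [Finset.sum_congr rfl fun p _ => h p, Fintype.sum_prod_type]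
  simp only [Finset.sum_const, Finset.card_univ, Fintype.card_fin, nsmul_eq_mul]
  rw [← Finset.mul_sum]
  rfl

section pol

variable {k : ℕ} {α : Type} [DecidableEq α]

lemma word_update {l p q : List α} {a : α} (hl : l = p ++ a :: q) (hp : a ∉ p) (hq : a ∉ q)
    (x : α → Mk k) (v : Mk k) :
    (l.map (Function.update x a v)).prod = (p.map x).prod * (v * (q.map x).prod) := by
  have e : ∀ r : List α, a ∉ r → r.map (Function.update x a v) = r.map x := by
    intro r hr
    refine List.map_congr_left fun c hc => ?_
    rw [Function.update_of_ne]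
    rintro rfl
    exact hr hc
  rw [hl, List.map_append, List.map_cons, List.prod_append, List.prod_cons, e p hp, e q hq,
    Function.update_self]

lemma exists_split {l : List α} {s : Multiset α} (hl : (l : Multiset α) = s) {a : α}
    (hs : s.count a = 1) : ∃ p q : List α, l = p ++ a :: q ∧ a ∉ p ∧ a ∉ q := by
  rw [← hl, Multiset.coe_count] at hs
  have hm : a ∈ l := List.count_pos_iff.1 (by omega)
  obtain ⟨p, q, rfl⟩ := List.append_of_mem hm
  refine ⟨p, q, rfl, ?_, ?_⟩
  · intro h
    have := List.count_pos_iff.2 h
    rw [List.count_append, List.count_cons_self] at hs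
    omega
  · intro h
    have := List.count_pos_iff.2 h
    rw [List.count_append, List.count_cons_self] at hs
    omega

lemma upd_add {s : Multiset α} {a : α} (hs : s.count a = 1) {f : (α → Mk k) → Mk k}
    (hf : f ∈ PolM k α s) (x : α → Mk k) (v w : Mk k) :
    f (Function.update x a (v + w)) =
      f (Function.update x a v) + f (Function.update x a w) := by
  unfold PolM at hf
  induction hf using Submodule.span_induction with
  | mem f h =>
    obtain ⟨l, hl, rfl⟩ := h
    obtain ⟨p, q, e, hp, hq⟩ := exists_split hl hs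
    beta_reduce
    rw [word_update e hp hq, word_update e hp hq, word_update e hp hq]
    noncomm_ring
  | zero => simp
  | add f g _ _ h1 h2 =>
    simp only [Pi.add_apply, h1, h2]
    abel
  | smul c f _ h1 =>
    simp only [Pi.smul_apply, h1, smul_add]

lemma upd_smul {s : Multiset α} {a : α} (hs : s.count a = 1) {f : (α → Mk k) → Mk k}
    (hf : f ∈ PolM k α s) (x : α → Mk k) (c : ℝ) (v : Mk k) :
    f (Function.update x a (c • v)) = c • f (Function.update x a v) := by
  unfold PolM at hf
  induction hf using Submodule.span_induction with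
  | mem f h =>
    obtain ⟨l, hl, rfl⟩ := h
    obtain ⟨p, q, e, hp, hq⟩ := exists_split hl hs
    beta_reduce
    rw [word_update e hp hq, word_update e hp hq, smul_mul_assoc, mul_smul_comm]
  | zero => simp
  | add f g _ _ h1 h2 =>
    simp only [Pi.add_apply, h1, h2, smul_add]
  | smul d f _ h1 =>
    simp only [Pi.smul_apply, h1]
    rw [smul_comm]

lemma upd_pol {s : Multiset α} {a : α} (hs : s.count a = 1) {f : (α → Mk k) → Mk k}
    (hf : f ∈ PolM k α s) (l : List α) :
    (fun x : α → Mk k => f (Function.update x a ((l.map x).prod * x a))) ∈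
      PolM k α (↑l + s) := by
  unfold PolM at hf
  induction hf using Submodule.span_induction with
  | mem f h =>
    obtain ⟨l', hl, rfl⟩ := h
    obtain ⟨p, q, e, hp, hq⟩ := exists_split hl hs
    refine Submodule.subset_span ⟨p ++ (l ++ a :: q), ?_, ?_⟩
    · rw [← hl, e, ← Multiset.coe_add, ← Multiset.coe_add, ← Multiset.coe_add]
      abel
    · funext x
      beta_reduce
      rw [word_update e hp hq]
      simp only [List.map_append, List.map_cons, List.prod_append, List.prod_cons, mul_assoc]
  | zero => exact Submodule.zero_mem _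
  | add f g _ _ h1 h2 => exact Submodule.add_mem _ h1 h2
  | smul c f _ h1 => exact Submodule.smul_mem _ c h1

lemma extend_update {n : ℕ} {X : Fin n → α} (hX : Function.Injective X) (v : Fin n → Mk k)
    (x : α → Mk k) (i : Fin n) (a : Mk k) :
    Function.extend X (Function.update v i a) x =
      Function.update (Function.extend X v x) (X i) a := by
  funext c
  by_cases h : ∃ j, X j = c
  · obtain ⟨j, rfl⟩ := h
    rw [hX.extend_apply]
    by_cases hj : j = i
    · subst hj
      rw [Function.update_self, Function.update_self]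
    · rw [Function.update_of_ne hj, Function.update_of_ne (fun h => hj (hX h)), hX.extend_apply]
  · rw [Function.extend_apply' _ _ _ h, Function.update_of_ne (fun h' => h ⟨i, h'.symm⟩),
      Function.extend_apply' _ _ _ h]

/-- the alternating map -/
noncomputable def galt {X : Fin (k * k) → α} (hX : Function.Injective X) {s : Multiset α}
    (hs : ∀ i, s.count (X i) = 1) {f : (α → Mk k) → Mk k} (hf : f ∈ PolM k α s) (hA : AltIn X f)
    (x : α → Mk k) (c d : Fin k) : (Mk k) [⋀^Fin (k * k)]→ₗ[ℝ] ℝ where
  toFun v := f (Function.extend X v x) c d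
  map_update_add' := by
    intro inst v i a b
    have hinst : inst = instDecidableEqFin (k * k) := Subsingleton.elim _ _
    subst hinst
    rw [extend_update hX, extend_update hX, extend_update hX, upd_add (hs i) hf]
    rfl
  map_update_smul' := by
    intro inst v i a b
    have hinst : inst = instDecidableEqFin (k * k) := Subsingleton.elim _ _
    subst hinst
    rw [extend_update hX, extend_update hX, upd_smul (hs i) hf]
    rfl
  map_eq_zero_of_eq' := by
    intro v i j hv hne
    change f (Function.extend X v x) c d = 0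
    rw [hA _ i j hne]
    · rfl
    · rw [hX.extend_apply, hX.extend_apply, hv]

lemma extend_self {n : ℕ} {X : Fin n → α} (hX : Function.Injective X) (x : α → Mk k) :
    Function.extend X (fun i => x (X i)) x = x := by
  funext c
  by_cases h : ∃ j, X j = c
  · obtain ⟨j, rfl⟩ := h
    rw [hX.extend_apply]
  · rw [Function.extend_apply' _ _ _ h]

lemma key {X : Fin (k * k) → α} (hX : Function.Injective X) {s : Multiset α}
    (hs : ∀ i, s.count (X i) = 1) {f : (α → Mk k) → Mk k} (hf : f ∈ PolM k α s) (hA : AltIn X f)
    (x : α → Mk k) (W : Mk k) :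
    ∑ j, f (Function.update x (X j) (W * x (X j))) = ((k : ℝ) * W.trace) • f x := by
  ext c d
  have h := der_eq ((Matrix.stdBasis ℝ (Fin k) (Fin k)).reindex finProdFinEquiv)
    (galt hX hs hf hA x c d) (LinearMap.mulLeft ℝ W) (fun i => x (X i))
  rw [trace_mul] at h
  have h1 : ∀ v, galt hX hs hf hA x c d v = f (Function.extend X v x) c d := fun _ => rfl
  simp only [h1] at h
  rw [extend_self hX] at h
  rw [Matrix.sum_apply, Matrix.smul_apply, smul_eq_mul, ← h]
  refine Finset.sum_congr rfl fun j _ => ?_
  rw [extend_update hX, extend_self hX, LinearMap.mulLeft_apply]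

end pol

theorem t_TRC : S_TRC := by
  intro k α _ X hk hX s hs f hf hA l
  have hk0 : (k : ℝ) ≠ 0 := by
    have : 0 < k := hk
    exact_mod_cast this.ne'
  have e : (fun x : α → Mk k => ((l.map x).prod).trace • f x) =
      (k : ℝ)⁻¹ • ∑ j : Fin (k * k),
        fun x : α → Mk k => f (Function.update x (X j) ((l.map x).prod * x (X j))) := by
    funext x
    rw [Pi.smul_apply, Finset.sum_apply, key hX hs hf hA x (l.map x).prod, smul_smul, ← mul_assoc,
      inv_mul_cancel₀ hk0, one_mul]
  rw [e]
  exact Submodule.smul_mem _ _ (Submodule.sum_mem _ fun j _ => upd_pol (hs j) hf l)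

end Pool.Agent.N8.CZ.TRC
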